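import Pool.Agent.Helper20.SW.Cone

/-!
# The fat sum of a user
-/

set_option autoImplicit false

namespace Pool.Agent.Helper28.RF

open Finset Classical H20SW

variable {Y U E G P R : Type} [Fintype Y] [Fintype U] [Fintype E]

theorem fat_sum_ge (C : Cone Y U E G P R) (z : U) (X' : Finset Y) (hX : ∀ x ∈ X', ¬ C.tip z x)
    (p t0 : ℕ)
    (ht0 : ∀ l, C.ok z l → p ≤ C.tl l → (X'.filter fun x => C.on x l).card ≤ t0)
    (l0 : E) (hl0 : C.ok z l0) (hl0p : p ≤ C.tl l0)
    (hl0t : (X'.filter fun x => C.on x l0).card = t0) (h2 : 2 ≤ t0)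
    (hN : 2 * t0 ≤ Fintype.card Y) (hlt : ∀ l, C.tl l < Fintype.card Y) :
    ((X'.card : ℝ) + 1 - t0) * (t0 - 1) ≤
      ((Fintype.card Y : ℝ) - t0) * C.Fz p z * (t0 - 1) +
      ((univ.filter fun l => C.ok z l ∧ C.tl l < p ∧
        2 ≤ (X'.filter fun x => C.on x l).card).card : ℝ) * p := by
  have : Nonempty E := ⟨l0⟩
  obtain ⟨j, hj⟩ : ∃ j : Y → Y → E, ∀ x y, x ≠ y → C.on x (j x y) ∧ C.on y (j x y) := by
    choose! j hj using C.join
    exact ⟨j, hj⟩
  set F : Finset E := univ.filter (fun l => C.ok z l ∧ p ≤ C.tl l) with hFdef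
  set Th : Finset E := univ.filter (fun l => C.ok z l ∧ C.tl l < p ∧
        2 ≤ (X'.filter fun x => C.on x l).card) with hThdef
  set S0 := X'.filter (fun x => C.on x l0) with hS0
  set D0 := X'.filter (fun x => ¬ C.on x l0) with hD0
  have hmF : ∀ l, l ∈ F ↔ C.ok z l ∧ p ≤ C.tl l := fun l => by rw [hFdef, mem_filter]; simp
  have hl0F : l0 ∈ F := (hmF l0).mpr ⟨hl0, hl0p⟩
  have hcardSD : S0.card + D0.card = X'.card := by
    rw [hS0, hD0]
    exact card_filter_add_card_filter_not _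
  set PA := (S0 ×ˢ D0).filter (fun q => j q.1 q.2 ∈ F) with hPA
  set PC := (S0 ×ˢ D0).filter (fun q => ¬ C.ok z (j q.1 q.2)) with hPC
  set PT := (S0 ×ˢ D0).filter (fun q => j q.1 q.2 ∈ Th) with hPT
  -- a pair
  have hpair : ∀ q ∈ S0 ×ˢ D0, q.1 ∈ X' ∧ C.on q.1 l0 ∧ q.2 ∈ X' ∧ ¬ C.on q.2 l0 ∧ q.1 ≠ q.2 ∧
      C.on q.1 (j q.1 q.2) ∧ C.on q.2 (j q.1 q.2) := by
    intro q hq
    obtain ⟨h1, h3⟩ := mem_product.mp hq
    obtain ⟨h1, h1'⟩ := mem_filter.mp h1
    obtain ⟨h3, h3'⟩ := mem_filter.mp h3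
    have hne : q.1 ≠ q.2 := fun e => h3' (e ▸ h1')
    exact ⟨h1, h1', h3, h3', hne, hj _ _ hne⟩
  -- every pair is of one of the three kinds
  have hcover : (S0 ×ˢ D0) ⊆ PA ∪ PC ∪ PT := by
    intro q hq
    obtain ⟨h1, h1', h3, h3', hne, ha, hb⟩ := hpair q hq
    rw [mem_union, mem_union]
    by_cases hok : C.ok z (j q.1 q.2)
    · by_cases hp : p ≤ C.tl (j q.1 q.2)
      · exact Or.inl (Or.inl (mem_filter.mpr ⟨hq, (hmF _).mpr ⟨hok, hp⟩⟩))
      · refine Or.inr (mem_filter.mpr ⟨hq, ?_⟩)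
        rw [hThdef, mem_filter]
        refine ⟨mem_univ _, hok, not_le.mp hp, ?_⟩
        have h5 : ({q.1, q.2} : Finset Y) ⊆ X'.filter fun x => C.on x (j q.1 q.2) := by
          intro x hx
          rcases mem_insert.mp hx with rfl | hx
          · exact mem_filter.mpr ⟨h1, ha⟩
          · rw [mem_singleton.mp hx]
            exact mem_filter.mpr ⟨h3, hb⟩
        have h6 := card_le_card h5
        rwa [card_pair hne] at h6
    · exact Or.inl (Or.inr (mem_filter.mpr ⟨hq, hok⟩))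
  have hcount : S0.card * D0.card ≤ PA.card + PC.card + PT.card := by
    have h1 := card_le_card hcover
    rw [card_product] at h1
    exact h1.trans ((card_union_le _ _).trans (Nat.add_le_add_right (card_union_le _ _) _))
  -- the class pairs
  have hPCc : PC.card ≤ D0.card := by
    refine card_le_card_of_injOn (fun q => q.2) (fun q hq => ?_) ?_
    · exact (mem_product.mp (mem_filter.mp hq).1).2
    · intro q hq q' hq' e
      obtain ⟨hq1, hq2⟩ := mem_filter.mp hq
      obtain ⟨hq1', hq2'⟩ := mem_filter.mp hq'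
      obtain ⟨h1, h1', h3, h3', hne, ha, hb⟩ := hpair q hq1
      obtain ⟨k1, k1', k3, k3', kne, ka, kb⟩ := hpair q' hq1'
      have e' : q.2 = q'.2 := e
      have h5 : j q.1 q.2 = j q'.1 q'.2 :=
        C.bad_uniq z q.2 _ _ (hX _ h3) hb (e' ▸ kb) hq2 hq2'
      by_contra hcon
      have h6 : q.1 ≠ q'.1 := fun h => hcon (Prod.ext h e')
      have h7 := C.uniq q.1 q'.1 (j q.1 q.2) l0 h6 ha (h5 ▸ ka) h1' k1'
      exact h3' (h7 ▸ hb)
  -- the thin pairs
  have hPTc : PT.card ≤ p * Th.card := by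
    refine card_le_mul_card_image_of_maps_to (f := fun q : Y × Y => j q.1 q.2)
      (fun q hq => (mem_filter.mp hq).2) p ?_
    intro l hl
    have hl2 := (mem_filter.mp hl).2
    have h1 : (PT.filter (fun q => j q.1 q.2 = l)).card ≤
        (univ.filter fun y => C.on y l).card := by
      refine card_le_card_of_injOn (fun q => q.2) (fun q hq => ?_) ?_
      · obtain ⟨hq1, hq2⟩ := mem_filter.mp hq
        obtain ⟨h1, h1', h3, h3', hne, ha, hb⟩ := hpair q (mem_filter.mp hq1).1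
        exact mem_filter.mpr ⟨mem_univ _, hq2 ▸ hb⟩
      · intro q hq q' hq' e
        obtain ⟨hq1, hq2⟩ := mem_filter.mp hq
        obtain ⟨hq1', hq2'⟩ := mem_filter.mp hq'
        obtain ⟨h1, h1', h3, h3', hne, ha, hb⟩ := hpair q (mem_filter.mp hq1).1
        obtain ⟨k1, k1', k3, k3', kne, ka, kb⟩ := hpair q' (mem_filter.mp hq1').1
        have e' : q.2 = q'.2 := e
        by_contra hcon
        have h6 : q.1 ≠ q'.1 := fun h => hcon (Prod.ext h e')
        have h7 := C.uniq q.1 q'.1 l l0 h6 (hq2 ▸ ha) (hq2' ▸ ka) h1' k1'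
        exact h3' (h7 ▸ hq2 ▸ hb)
    exact h1.trans hl2.2.1.le
  -- the fat pairs
  set LX := (F ×ˢ D0).filter (fun m => C.on m.2 m.1) with hLX
  set LS := ((F.erase l0) ×ˢ S0).filter (fun m => C.on m.2 m.1) with hLS
  have hA1 : PA.card ≤ LX.card := by
    refine card_le_card_of_injOn (fun q : Y × Y => (j q.1 q.2, q.2)) (fun q hq => ?_) ?_
    · obtain ⟨hq1, hq2⟩ := mem_filter.mp hq
      obtain ⟨h1, h1', h3, h3', hne, ha, hb⟩ := hpair q hq1
      exact mem_filter.mpr ⟨mem_product.mpr ⟨hq2, (mem_product.mp hq1).2⟩, hb⟩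
    · intro q hq q' hq' e
      obtain ⟨hq1, hq2⟩ := mem_filter.mp hq
      obtain ⟨hq1', hq2'⟩ := mem_filter.mp hq'
      obtain ⟨h1, h1', h3, h3', hne, ha, hb⟩ := hpair q hq1
      obtain ⟨k1, k1', k3, k3', kne, ka, kb⟩ := hpair q' hq1'
      have e0 : (j q.1 q.2, q.2) = (j q'.1 q'.2, q'.2) := e
      have e1 : j q.1 q.2 = j q'.1 q'.2 := (Prod.mk.inj e0).1
      have e2 : q.2 = q'.2 := (Prod.mk.inj e0).2
      by_contra hcon
      have h6 : q.1 ≠ q'.1 := fun h => hcon (Prod.ext h e2)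
      have h7 := C.uniq q.1 q'.1 (j q.1 q.2) l0 h6 ha (e1 ▸ ka) h1' k1'
      exact h3' (h7 ▸ hb)
  have hA2 : PA.card ≤ (t0 - 1) * LS.card := by
    refine card_le_mul_card_image_of_maps_to (f := fun q : Y × Y => (j q.1 q.2, q.1))
      (fun q hq => ?_) (t0 - 1) ?_
    · obtain ⟨hq1, hq2⟩ := mem_filter.mp hq
      obtain ⟨h1, h1', h3, h3', hne, ha, hb⟩ := hpair q hq1
      refine mem_filter.mpr ⟨mem_product.mpr ⟨mem_erase.mpr ⟨fun e => h3' (e ▸ hb), hq2⟩,
        (mem_product.mp hq1).1⟩, ha⟩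
    · intro m hm
      obtain ⟨hm1, hm2⟩ := mem_filter.mp hm
      obtain ⟨hm3, hm4⟩ := mem_product.mp hm1
      obtain ⟨hm5, hm6⟩ := mem_erase.mp hm3
      obtain ⟨hok, hp⟩ := (hmF _).mp hm6
      have h1 : (PA.filter (fun q : Y × Y => (j q.1 q.2, q.1) = m)).card ≤
          ((X'.filter fun x => C.on x m.1).erase m.2).card := by
        refine card_le_card_of_injOn (fun q => q.2) (fun q hq => ?_) ?_
        · obtain ⟨hq1, hq2⟩ := mem_filter.mp hq
          obtain ⟨h1, h1', h3, h3', hne, ha, hb⟩ := hpair q (mem_filter.mp hq1).1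
          have e1 : j q.1 q.2 = m.1 := congrArg Prod.fst hq2
          have e2 : q.1 = m.2 := congrArg Prod.snd hq2
          exact mem_erase.mpr ⟨fun e => hne (e2.trans e.symm), mem_filter.mpr ⟨h3, e1 ▸ hb⟩⟩
        · intro q hq q' hq' e
          have e1 : q.1 = m.2 := congrArg Prod.snd (mem_filter.mp hq).2
          have e2 : q'.1 = m.2 := congrArg Prod.snd (mem_filter.mp hq').2
          exact Prod.ext (e1.trans e2.symm) e
      have h3 : m.2 ∈ X'.filter fun x => C.on x m.1 :=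
        mem_filter.mpr ⟨(mem_filter.mp hm4).1, hm2⟩
      rw [card_erase_of_mem h3] at h1
      have h4 := ht0 m.1 hok hp
      omega
  -- the sum
  have hT : (∑ l ∈ F, (X'.filter fun x => C.on x l).card) = LX.card + LS.card + t0 := by
    have e1 : (∑ l ∈ F, (X'.filter fun x => C.on x l).card) =
        (∑ l ∈ F, (D0.filter fun x => C.on x l).card) +
        (∑ l ∈ F, (S0.filter fun x => C.on x l).card) := by
      rw [← sum_add_distrib]
      refine sum_congr rfl (fun l _ => ?_)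
      have h1 : X'.filter (fun x => C.on x l) =
          (D0.filter fun x => C.on x l) ∪ (S0.filter fun x => C.on x l) := by
        ext x
        simp only [hD0, hS0, mem_union, mem_filter]
        tauto
      rw [h1, card_union_of_disjoint]
      rw [disjoint_left]
      intro x hx hx'
      exact (mem_filter.mp (mem_filter.mp hx).1).2 (mem_filter.mp (mem_filter.mp hx').1).2
    have e2 : (∑ l ∈ F, (D0.filter fun x => C.on x l).card) = LX.card := by
      rw [hLX, card_filter, sum_product]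
      refine sum_congr rfl (fun l _ => ?_)
      rw [card_filter]
    have e3 : (∑ l ∈ F.erase l0, (S0.filter fun x => C.on x l).card) = LS.card := by
      rw [hLS, card_filter, sum_product]
      refine sum_congr rfl (fun l _ => ?_)
      rw [card_filter]
    have e4 : (S0.filter fun x => C.on x l0).card = t0 := by
      rw [← hl0t]
      congr 1
      ext x
      simp only [hS0, mem_filter]
      tauto
    rw [e1, e2, ← add_sum_erase F _ hl0F, e3, e4]
    ring
  have hmain : t0 * PA.card + t0 * (t0 - 1) ≤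
      (t0 - 1) * ∑ l ∈ F, (X'.filter fun x => C.on x l).card := by
    rw [hT]
    obtain ⟨u, rfl⟩ : ∃ u, t0 = u + 1 := ⟨t0 - 1, by omega⟩
    simp only [Nat.add_sub_cancel] at hA2 ⊢
    nlinarith [hA1, hA2]
  -- the fat sum
  have hNpos : (0 : ℝ) < (Fintype.card Y : ℝ) - t0 := by
    have h1 : (2 * (t0 : ℝ)) ≤ (Fintype.card Y : ℝ) := by exact_mod_cast hN
    have h3 : (2 : ℝ) ≤ t0 := by exact_mod_cast h2
    linarith
  have hFz : ((∑ l ∈ F, (X'.filter fun x => C.on x l).card : ℕ) : ℝ) ≤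
      t0 * ((Fintype.card Y : ℝ) - t0) * C.Fz p z := by
    have e1 : C.Fz p z = ∑ l ∈ F, (1 : ℝ) / ((Fintype.card Y : ℝ) - C.tl l) := rfl
    rw [e1, mul_sum]
    push_cast
    refine sum_le_sum (fun l hl => ?_)
    obtain ⟨hok, hp⟩ := (hmF l).mp hl
    have h1 : ((X'.filter fun x => C.on x l).card : ℝ) ≤ t0 := by exact_mod_cast ht0 l hok hp
    have h3 : ((X'.filter fun x => C.on x l).card : ℝ) ≤ C.tl l := by
      have h4 : (X'.filter fun x => C.on x l).card ≤ C.tl l :=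
        card_le_card (fun x hx => mem_filter.mpr ⟨mem_univ _, (mem_filter.mp hx).2⟩)
      exact_mod_cast h4
    have h5 : (0 : ℝ) < (Fintype.card Y : ℝ) - C.tl l := by
      have h6 : ((C.tl l : ℕ) : ℝ) < (Fintype.card Y : ℝ) := by exact_mod_cast hlt l
      linarith
    have h7 : (2 * (t0 : ℝ)) ≤ (Fintype.card Y : ℝ) := by exact_mod_cast hN
    have h8 : (0 : ℝ) ≤ ((X'.filter fun x => C.on x l).card : ℝ) := Nat.cast_nonneg _
    rw [mul_one_div, le_div_iff₀ h5]
    nlinarith [mul_nonneg h8 (sub_nonneg.mpr h3),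
      mul_nonneg (sub_nonneg.mpr h1)
        (by linarith : (0 : ℝ) ≤ (Fintype.card Y : ℝ) - t0 -
          ((X'.filter fun x => C.on x l).card : ℝ))]
  -- conclusion
  have r1 : ((t0 : ℝ)) * (D0.card : ℝ) ≤ (PA.card : ℝ) + PC.card + PT.card := by
    rw [← hl0t]
    exact_mod_cast hcount
  have r2 : (PC.card : ℝ) ≤ D0.card := by exact_mod_cast hPCc
  have r3 : (PT.card : ℝ) ≤ p * Th.card := by exact_mod_cast hPTc
  have r4 : (t0 : ℝ) * PA.card + t0 * (t0 - 1) ≤
      (t0 - 1) * ((∑ l ∈ F, (X'.filter fun x => C.on x l).card : ℕ) : ℝ) := by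
    have h1 : ((t0 - 1 : ℕ) : ℝ) = (t0 : ℝ) - 1 := by
      rw [Nat.cast_sub (by omega), Nat.cast_one]
    have h3 : ((t0 * PA.card + t0 * (t0 - 1) : ℕ) : ℝ) ≤
        (((t0 - 1) * ∑ l ∈ F, (X'.filter fun x => C.on x l).card : ℕ) : ℝ) := by
      exact_mod_cast hmain
    rw [Nat.cast_add, Nat.cast_mul, Nat.cast_mul, Nat.cast_mul, h1] at h3
    exact h3
  have r5 : (t0 : ℝ) + D0.card = X'.card := by
    rw [← hl0t]
    exact_mod_cast hcardSD
  have r6 : (2 : ℝ) ≤ t0 := by exact_mod_cast h2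
  have r7 : (t0 : ℝ) * PA.card + t0 * (t0 - 1) ≤
      (t0 - 1) * (t0 * ((Fintype.card Y : ℝ) - t0) * C.Fz p z) :=
    r4.trans (mul_le_mul_of_nonneg_left hFz (by linarith))
  have r8 : (PA.card : ℝ) + (t0 - 1) ≤
      (t0 - 1) * (((Fintype.card Y : ℝ) - t0) * C.Fz p z) := by
    have h1 : (t0 : ℝ) * ((PA.card : ℝ) + (t0 - 1)) ≤
        t0 * ((t0 - 1) * (((Fintype.card Y : ℝ) - t0) * C.Fz p z)) := by
      calc (t0 : ℝ) * ((PA.card : ℝ) + (t0 - 1)) = t0 * PA.card + t0 * (t0 - 1) := by ring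
        _ ≤ (t0 - 1) * (t0 * ((Fintype.card Y : ℝ) - t0) * C.Fz p z) := r7
        _ = t0 * ((t0 - 1) * (((Fintype.card Y : ℝ) - t0) * C.Fz p z)) := by ring
    exact le_of_mul_le_mul_left h1 (by linarith)
  have r9 : (t0 : ℝ) * D0.card - D0.card - p * Th.card ≤ PA.card := by linarith
  have r10 : (D0.card : ℝ) = X'.card - t0 := by linarith
  rw [r10] at r9
  nlinarith [r8, r9]

end Pool.Agent.Helper28.RF
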