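import Mathlib

/-!
# Numbers for the dense case
-/

set_option autoImplicit false

namespace Pool.Agent.Helper28.RF

theorem pow_succ_le {a : ℕ} (ha : 60 ≤ a) : (a + 1) ^ 40 ≤ 2 * a ^ 40 := by
  -- `(a + 1) / a ≤ 61 / 60`
  have h1 : 60 * (a + 1) ≤ 61 * a := by omega
  have h2 : (60 * (a + 1)) ^ 40 ≤ (61 * a) ^ 40 := Nat.pow_le_pow_left h1 40
  rw [mul_pow, mul_pow] at h2
  have h3 : (61 : ℕ) ^ 40 ≤ 2 * 60 ^ 40 := by norm_num
  have h4 : 60 ^ 40 * (a + 1) ^ 40 ≤ 60 ^ 40 * (2 * a ^ 40) := by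
    calc 60 ^ 40 * (a + 1) ^ 40 ≤ 61 ^ 40 * a ^ 40 := h2
      _ ≤ (2 * 60 ^ 40) * a ^ 40 := Nat.mul_le_mul_right _ h3
      _ = 60 ^ 40 * (2 * a ^ 40) := by ring
  exact Nat.le_of_mul_le_mul_left h4 (by positivity)

/-- Every `N ≥ 3000 ^ 40` is between `a ^ 40` and `2 * a ^ 40` for some `a ≥ 3000`. -/
theorem exists_a {N : ℕ} (hN : 3000 ^ 40 ≤ N) :
    ∃ a : ℕ, 3000 ≤ a ∧ a ^ 40 ≤ N ∧ N ≤ 2 * a ^ 40 := by
  classical
  have hex : ∃ a : ℕ, N < (a + 1) ^ 40 :=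
    ⟨N, lt_of_lt_of_le (Nat.lt_succ_self N) (Nat.le_self_pow (by norm_num) _)⟩
  refine ⟨Nat.find hex, ?_, ?_, ?_⟩
  · by_contra hcon
    have h1 : Nat.find hex + 1 ≤ 3000 := by omega
    have h2 := Nat.pow_le_pow_left h1 40
    have h3 := Nat.find_spec hex
    exact absurd (lt_of_lt_of_le h3 (h2.trans hN)) (lt_irrefl _)
  · rcases Nat.eq_zero_or_pos (Nat.find hex) with h0 | h0
    · rw [h0]
      exact Nat.zero_le _
    · have h1 := Nat.find_min hex (m := Nat.find hex - 1) (by omega)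
      rw [Nat.sub_add_cancel h0] at h1
      exact not_lt.mp h1
  · have h1 := Nat.find_spec hex
    have h2 : 60 ≤ Nat.find hex := by
      by_contra hcon
      have h3 : Nat.find hex + 1 ≤ 60 := by omega
      have h4 := Nat.pow_le_pow_left h3 40
      have h5 : (60 : ℕ) ^ 40 ≤ 3000 ^ 40 := Nat.pow_le_pow_left (by norm_num) 40
      exact absurd (lt_of_lt_of_le h1 (h4.trans (h5.trans hN))) (lt_irrefl _)
    exact h1.le.trans (pow_succ_le h2)

end Pool.Agent.Helper28.RF
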